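import Mathlib

/-!
# The gunport problem for boards with no side divisible by 3: definitions of the statement
-/

set_option autoImplicit false

namespace Pool.H33.MV.PearceFalse

open Finset

/-- Two cells of the `m × n` board share an edge. -/
def Adj {m n : ℕ} (a b : Fin m × Fin n) : Prop :=
  (a.1 = b.1 ∧ ((a.2 : ℕ) + 1 = b.2 ∨ (b.2 : ℕ) + 1 = a.2)) ∨
  (a.2 = b.2 ∧ ((a.1 : ℕ) + 1 = b.1 ∨ (b.1 : ℕ) + 1 = a.1))

/-- `D` is a gunport configuration on the `m × n` board: a set of dominoes (pairs of cells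
sharing an edge), pairwise non-overlapping, such that of two cells sharing an edge at least
one is covered. -/
structure IsGunport {m n : ℕ} (D : Finset (Finset (Fin m × Fin n))) : Prop where
  isDomino : ∀ d ∈ D, ∃ a b, Adj a b ∧ d = {a, b}
  nonOverlapping : ∀ d ∈ D, ∀ e ∈ D, d ≠ e → Disjoint d e
  noAdjacentHoles : ∀ a b, Adj a b → (∃ d ∈ D, a ∈ d) ∨ (∃ d ∈ D, b ∈ d)

open Classical in
/-- The holes: cells not covered by any domino of `D`. -/
noncomputable def holes {m n : ℕ} (D : Finset (Finset (Fin m × Fin n))) :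
    Finset (Fin m × Fin n) :=
  Finset.univ.filter (fun a => ∀ d ∈ D, a ∉ d)

/-- `G m n`: the maximum number of holes over all gunport configurations. -/
noncomputable def G (m n : ℕ) : ℕ :=
  sSup {h : ℕ | ∃ D : Finset (Finset (Fin m × Fin n)), IsGunport D ∧ (holes D).card = h}

/-- The value asserted by Pearce's formula. -/
def pearceValue (m n : ℕ) : ℚ :=
  if m % 3 = n % 3 then ((m : ℚ) * n - 4) / 3 else ((m : ℚ) * n - 2) / 3

end Pool.H33.MV.PearceFalse
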