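import Mathlib
import Pool.Agent.H33.MV.PearceFalseDefs

/-!
# The gunport problem for boards with no side divisible by 3: the proof
-/

set_option autoImplicit false

namespace Pool.H33.MV.PearceFalse

open Finset

/-- labels -/
inductive T | O | L | R | U | D

deriving DecidableEq

structure IsLab (m n : ℕ) (t : ℕ → ℕ → T) : Prop where
  hR : ∀ i j, i < m → j < n → t i j = T.R → j + 1 < n ∧ t i (j+1) = T.L
  hL : ∀ i j, i < m → j < n → t i j = T.L → ∃ j', j = j' + 1 ∧ t i j' = T.R
  hD : ∀ i j, i < m → j < n → t i j = T.D → i + 1 < m ∧ t (i+1) j = T.U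
  hU : ∀ i j, i < m → j < n → t i j = T.U → ∃ i', i = i' + 1 ∧ t i' j = T.D
  hOh : ∀ i j, i < m → j + 1 < n → t i j = T.O → t i (j+1) ≠ T.O
  hOv : ∀ i j, i + 1 < m → j < n → t i j = T.O → t (i+1) j ≠ T.O

def T.swap : T → T
  | T.O => T.O
  | T.L => T.U
  | T.R => T.D
  | T.U => T.L
  | T.D => T.R

lemma IsLab.transpose {m n : ℕ} {t : ℕ → ℕ → T} (h : IsLab m n t) :
    IsLab n m (fun i j => (t j i).swap) where
  hR := by
    intro i j hi hj hh
    have : t j i = T.D := by
      cases h' : t j i <;> simp_all [T.swap]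
    obtain ⟨h1, h2⟩ := h.hD j i hj hi this
    exact ⟨h1, by simp [h2, T.swap]⟩
  hL := by
    intro i j hi hj hh
    have : t j i = T.U := by
      cases h' : t j i <;> simp_all [T.swap]
    obtain ⟨j', h1, h2⟩ := h.hU j i hj hi this
    exact ⟨j', h1, by simp [h2, T.swap]⟩
  hD := by
    intro i j hi hj hh
    have : t j i = T.R := by
      cases h' : t j i <;> simp_all [T.swap]
    obtain ⟨h1, h2⟩ := h.hR j i hj hi this
    exact ⟨h1, by simp [h2, T.swap]⟩
  hU := by
    intro i j hi hj hh
    have : t j i = T.L := by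
      cases h' : t j i <;> simp_all [T.swap]
    obtain ⟨j', h1, h2⟩ := h.hL j i hj hi this
    exact ⟨j', h1, by simp [h2, T.swap]⟩
  hOh := by
    intro i j hi hj hh hh'
    have h1 : t j i = T.O := by
      cases h' : t j i <;> simp_all [T.swap]
    have h2 : t (j+1) i = T.O := by
      cases h' : t (j+1) i <;> simp_all [T.swap]
    exact h.hOv j i hj hi h1 h2
  hOv := by
    intro i j hi hj hh hh'
    have h1 : t j i = T.O := by
      cases h' : t j i <;> simp_all [T.swap]
    have h2 : t j (i+1) = T.O := by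
      cases h' : t j (i+1) <;> simp_all [T.swap]
    exact h.hOh j i hj hi h1 h2

/-- The crossing lemma. -/
lemma crossing {m n : ℕ} {t : ℕ → ℕ → T} (h : IsLab m n t) (hm : 0 < m) (f g : ℕ → ℕ)
    (hf : ∀ j < n, f j < m ∧ t (f j) j = T.D)
    (hf1 : ∀ j, j + 1 < n → f (j+1) = f j + 1 ∨ f (j+1) + 1 = f j)
    (hg : ∀ i < m, g i < n ∧ t i (g i) = T.R)
    (hg1 : ∀ i, i + 1 < m → g (i+1) = g i + 1 ∨ g (i+1) + 1 = g i) : False := by
  have key : ∀ i, i < m → i + 1 ≤ f (g i) := by
    intro i
    induction i with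
    | zero =>
      intro h0
      by_contra hcon
      have h1 : f (g 0) = 0 := by omega
      obtain ⟨hgn, hgt⟩ := hg 0 h0
      obtain ⟨hfm, hft⟩ := hf (g 0) hgn
      rw [h1] at hft
      rw [hft] at hgt
      exact absurd hgt (by simp)
    | succ i ih =>
      intro hi
      have ih' := ih (by omega)
      obtain ⟨hgn, hgt⟩ := hg i (by omega)
      obtain ⟨hgn1, hgt1⟩ := hg (i+1) hi
      obtain ⟨hfm, hft⟩ := hf (g i) hgn
      obtain ⟨hfm1, hft1⟩ := hf (g (i+1)) hgn1
      have hstep : f (g (i+1)) = f (g i) + 1 ∨ f (g (i+1)) + 1 = f (g i) := by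
        rcases hg1 i hi with h1 | h1
        · rw [h1]
          exact hf1 (g i) (by omega)
        · have := hf1 (g (i+1)) (by omega)
          rw [h1] at this
          omega
      by_contra hcon
      -- f (g (i+1)) ≤ i + 1 ; f (g i) ≥ i+1
      have hle : f (g (i+1)) = i + 1 ∨ f (g (i+1)) = i := by omega
      rcases hle with h1 | h1
      · rw [h1] at hft1
        rw [hft1] at hgt1
        exact absurd hgt1 (by simp)
      · rw [h1] at hft1
        have := (h.hD i (g (i+1)) (by omega) hgn1 hft1).2
        rw [this] at hgt1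
        exact absurd hgt1 (by simp)
  have h1 := key (m-1) (by omega)
  obtain ⟨hgn, hgt⟩ := hg (m-1) (by omega)
  have h2 := (hf (g (m-1)) hgn).1
  omega

/-- column counts -/
def cnt (m : ℕ) (t : ℕ → ℕ → T) (c : T) (j : ℕ) : ℕ := ((range m).filter (fun i => t i j = c)).card

lemma cnt_total (m : ℕ) (t : ℕ → ℕ → T) (j : ℕ) :
    cnt m t T.O j + cnt m t T.L j + cnt m t T.R j + cnt m t T.U j + cnt m t T.D j = m := by
  unfold cnt
  have : ∀ c, ((range m).filter (fun i => t i j = c)).card = ∑ i ∈ range m, if t i j = c then 1 else 0 := by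
    intro c
    rw [card_filter]
  simp only [this]
  rw [← sum_add_distrib, ← sum_add_distrib, ← sum_add_distrib, ← sum_add_distrib]
  have h1 : ∀ i ∈ range m, ((((if t i j = T.O then 1 else 0) + if t i j = T.L then 1 else 0) + (if t i j = T.R then 1 else 0)) + if t i j = T.U then 1 else 0) + (if t i j = T.D then 1 else 0) = 1 := by
    intro i _
    cases t i j <;> simp
  rw [sum_congr rfl h1]
  simp

variable {m n : ℕ} {t : ℕ → ℕ → T}

lemma cnt_UD (h : IsLab m n t) {j : ℕ} (hj : j < n) : cnt m t T.U j = cnt m t T.D j := by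
  unfold cnt
  symm
  apply card_bij (fun i _ => i + 1)
  · intro i hi
    simp only [mem_filter, mem_range] at hi ⊢
    exact h.hD i j hi.1 hj hi.2
  · intro a _ b _ hab
    simpa using hab
  · intro b hb
    simp only [mem_filter, mem_range] at hb
    obtain ⟨i', h1, h2⟩ := h.hU b j hb.1 hj hb.2
    refine ⟨i', ?_, h1.symm⟩
    simp only [mem_filter, mem_range]
    exact ⟨by omega, h2⟩

lemma cnt_RL (h : IsLab m n t) {j : ℕ} (hj : j + 1 < n) : cnt m t T.R j = cnt m t T.L (j+1) := by
  unfold cnt
  congr 1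
  ext i
  simp only [mem_filter, mem_range]
  constructor
  · rintro ⟨h1, h2⟩
    exact ⟨h1, (h.hR i j h1 (by omega) h2).2⟩
  · rintro ⟨h1, h2⟩
    obtain ⟨j', h3, h4⟩ := h.hL i (j+1) h1 hj h2
    have : j = j' := by omega
    subst this
    exact ⟨h1, h4⟩

lemma cnt_L_zero (h : IsLab m n t) (hn : 0 < n) : cnt m t T.L 0 = 0 := by
  unfold cnt
  rw [card_eq_zero, filter_eq_empty_iff]
  intro i hi hL
  simp only [mem_range] at hi
  obtain ⟨j', h1, h2⟩ := h.hL i 0 hi hn hL
  omega

lemma cnt_R_last (h : IsLab m n t) {j : ℕ} (hj : j + 1 = n) : cnt m t T.R j = 0 := by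
  unfold cnt
  rw [card_eq_zero, filter_eq_empty_iff]
  intro i hi hR
  simp only [mem_range] at hi
  obtain ⟨h1, h2⟩ := h.hR i j hi (by omega) hR
  omega

/-- vertical dominoes of column `j` without a hole on their right -/
def MR (m : ℕ) (t : ℕ → ℕ → T) (j : ℕ) : Finset ℕ :=
  (range m).filter (fun i => t i j = T.D ∧ t i (j+1) ≠ T.O ∧ t (i+1) (j+1) ≠ T.O)

/-- dominoes with leftmost column `j+1` without a hole on their left -/
def MLV (m : ℕ) (t : ℕ → ℕ → T) (j : ℕ) : Finset ℕ :=
  (range m).filter (fun k => t k (j+1) = T.D ∧ t k j ≠ T.O ∧ t (k+1) j ≠ T.O)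

def MLH (m : ℕ) (t : ℕ → ℕ → T) (j : ℕ) : Finset ℕ :=
  (range m).filter (fun k => t k (j+1) = T.R ∧ t k j ≠ T.O)

lemma holes_left (h : IsLab m n t) {j : ℕ} (hj : j + 1 < n) :
    cnt m t T.O j + ((MLV m t j).card + (MLH m t j).card) ≤ cnt m t T.R (j+1) + cnt m t T.D (j+1) := by
  classical
  set A := (range m).filter (fun i => t i (j+1) = T.R ∧ t i j = T.O) with hA
  set B := (range m).filter (fun i => t i (j+1) = T.D ∧ t i j = T.O) with hB
  set C := (range m).filter (fun i => t i (j+1) = T.U ∧ t i j = T.O) with hC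
  set V2 := (range m).filter (fun i => t i (j+1) = T.D ∧ t (i+1) j = T.O) with hV2
  have h1 : cnt m t T.O j ≤ A.card + B.card + C.card := by
    unfold cnt
    refine le_trans (card_le_card (t := A ∪ B ∪ C) ?_) (le_trans (card_union_le _ _) (by gcongr; exact card_union_le _ _))
    intro i hi
    simp only [mem_filter, mem_range] at hi
    simp only [hA, hB, hC, mem_union, mem_filter, mem_range]
    have hno := h.hOh i j hi.1 hj hi.2
    cases h' : t i (j+1) with
    | O => exact absurd h' hno
    | L =>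
      obtain ⟨j', h3, h4⟩ := h.hL i (j+1) hi.1 hj h'
      have : j = j' := by omega
      subst this
      rw [hi.2] at h4
      exact absurd h4 (by simp)
    | R => left; left; exact ⟨hi.1, rfl, hi.2⟩
    | U => right; exact ⟨hi.1, rfl, hi.2⟩
    | D => left; right; exact ⟨hi.1, rfl, hi.2⟩
  have h2 : C.card ≤ V2.card := by
    apply card_le_card_of_surjOn (fun i => i + 1)
    intro i hi
    simp only [hC, coe_filter, Set.mem_ofPred_eq, mem_range] at hi
    obtain ⟨i', h3, h4⟩ := h.hU i (j+1) hi.1 hj hi.2.1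
    refine ⟨i', ?_, h3.symm⟩
    simp only [hV2, coe_filter, Set.mem_ofPred_eq, mem_range]
    refine ⟨by omega, h4, ?_⟩
    rw [← h3]; exact hi.2.2
  have h3 : cnt m t T.R (j+1) = A.card + (MLH m t j).card := by
    unfold cnt MLH
    rw [← card_union_of_disjoint]
    · congr 1
      ext i
      simp only [hA, mem_union, mem_filter, mem_range]
      tauto
    · rw [disjoint_left]
      intro i hi hi'
      simp only [hA, mem_filter, mem_range] at hi hi'
      exact hi'.2.2 hi.2.2
  have h4 : B.card + V2.card + (MLV m t j).card ≤ cnt m t T.D (j+1) := by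
    have hd1 : Disjoint B V2 := by
      rw [disjoint_left]
      intro i hi hi'
      simp only [hB, hV2, mem_filter, mem_range] at hi hi'
      have := (h.hD i (j+1) hi.1 hj hi.2.1).1
      exact h.hOv i j this (by omega) hi.2.2 hi'.2.2
    have hd2 : Disjoint (B ∪ V2) (MLV m t j) := by
      rw [disjoint_left]
      intro i hi hi'
      simp only [hB, hV2, MLV, mem_union, mem_filter, mem_range] at hi hi'
      rcases hi with hi | hi
      · exact hi'.2.2.1 hi.2.2
      · exact hi'.2.2.2 hi.2.2
    rw [← card_union_of_disjoint hd1, ← card_union_of_disjoint hd2]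
    unfold cnt
    apply card_le_card
    intro i hi
    simp only [hB, hV2, MLV, mem_union, mem_filter, mem_range] at hi ⊢
    tauto
  omega

lemma holes_right (h : IsLab m n t) {j : ℕ} (hj : j + 1 < n) :
    cnt m t T.O (j+1) + (MR m t j).card ≤ cnt m t T.L j + cnt m t T.D j := by
  classical
  set A := (range m).filter (fun i => t i j = T.L ∧ t i (j+1) = T.O) with hA
  set B := (range m).filter (fun i => t i j = T.D ∧ t i (j+1) = T.O) with hB
  set C := (range m).filter (fun i => t i j = T.U ∧ t i (j+1) = T.O) with hC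
  set V2 := (range m).filter (fun i => t i j = T.D ∧ t (i+1) (j+1) = T.O) with hV2
  have h1 : cnt m t T.O (j+1) ≤ A.card + B.card + C.card := by
    unfold cnt
    refine le_trans (card_le_card (t := A ∪ B ∪ C) ?_) (le_trans (card_union_le _ _) (by gcongr; exact card_union_le _ _))
    intro i hi
    simp only [mem_filter, mem_range] at hi
    simp only [hA, hB, hC, mem_union, mem_filter, mem_range]
    cases h' : t i j with
    | O => exact absurd hi.2 (h.hOh i j hi.1 hj h')
    | R =>
      have := (h.hR i j hi.1 (by omega) h').2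
      rw [hi.2] at this
      exact absurd this (by simp)
    | L => left; left; exact ⟨hi.1, rfl, hi.2⟩
    | U => right; exact ⟨hi.1, rfl, hi.2⟩
    | D => left; right; exact ⟨hi.1, rfl, hi.2⟩
  have h2 : C.card ≤ V2.card := by
    apply card_le_card_of_surjOn (fun i => i + 1)
    intro i hi
    simp only [hC, coe_filter, Set.mem_ofPred_eq, mem_range] at hi
    obtain ⟨i', h3, h4⟩ := h.hU i j hi.1 (by omega) hi.2.1
    refine ⟨i', ?_, h3.symm⟩
    simp only [hV2, coe_filter, Set.mem_ofPred_eq, mem_range]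
    refine ⟨by omega, h4, ?_⟩
    rw [← h3]; exact hi.2.2
  have h3 : A.card ≤ cnt m t T.L j := by
    unfold cnt
    apply card_le_card
    intro i hi
    simp only [hA, mem_filter, mem_range] at hi ⊢
    tauto
  have h4 : B.card + V2.card + (MR m t j).card ≤ cnt m t T.D j := by
    have hd1 : Disjoint B V2 := by
      rw [disjoint_left]
      intro i hi hi'
      simp only [hB, hV2, mem_filter, mem_range] at hi hi'
      have := (h.hD i j hi.1 (by omega) hi.2.1).1
      exact h.hOv i (j+1) this (by omega) hi.2.2 hi'.2.2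
    have hd2 : Disjoint (B ∪ V2) (MR m t j) := by
      rw [disjoint_left]
      intro i hi hi'
      simp only [hB, hV2, MR, mem_union, mem_filter, mem_range] at hi hi'
      rcases hi with hi | hi
      · exact hi'.2.2.1 hi.2.2
      · exact hi'.2.2.2 hi.2.2
    rw [← card_union_of_disjoint hd1, ← card_union_of_disjoint hd2]
    unfold cnt
    apply card_le_card
    intro i hi
    simp only [hB, hV2, MR, mem_union, mem_filter, mem_range] at hi ⊢
    tauto
  omega

lemma border_left (h : IsLab m n t) (hn : 0 < n) :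
    cnt m t T.O 0 ≤ cnt m t T.R 0 + cnt m t T.D 0 + 1 := by
  classical
  unfold cnt
  set A := (range m).filter (fun i => t i 0 = T.O) with hA
  have h1 : (A.erase (m-1)).card ≤ ((range m).filter (fun i => t i 0 = T.R)).card + ((range m).filter (fun i => t i 0 = T.D)).card := by
    rw [← card_image_of_injective (A.erase (m-1)) (add_left_injective 1)]
    refine le_trans (card_le_card ?_) (card_union_le _ _)
    intro k hk
    simp only [mem_image, mem_erase, hA, mem_filter, mem_range] at hk
    obtain ⟨i, ⟨h2, h3, h4⟩, rfl⟩ := hk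
    have h5 : i + 1 < m := by omega
    simp only [mem_union, mem_filter, mem_range]
    cases h' : t (i+1) 0 with
    | O => exact absurd h' (h.hOv i 0 h5 hn h4)
    | L =>
      obtain ⟨j', h6, _⟩ := h.hL (i+1) 0 h5 hn h'
      omega
    | U =>
      obtain ⟨i', h6, h7⟩ := h.hU (i+1) 0 h5 hn h'
      have : i = i' := by omega
      subst this
      rw [h4] at h7
      exact absurd h7 (by simp)
    | R => left; exact ⟨h5, rfl⟩
    | D => right; exact ⟨h5, rfl⟩
  have h2 : A.card ≤ (A.erase (m-1)).card + 1 := by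
    have := pred_card_le_card_erase (s := A) (a := m-1)
    omega
  omega

lemma border_right (h : IsLab m n t) {j : ℕ} (hn : j + 1 = n) :
    cnt m t T.O j ≤ cnt m t T.L j + cnt m t T.D j + 1 := by
  classical
  unfold cnt
  set A := (range m).filter (fun i => t i j = T.O) with hA
  have h1 : (A.erase (m-1)).card ≤ ((range m).filter (fun i => t i j = T.L)).card + ((range m).filter (fun i => t i j = T.D)).card := by
    rw [← card_image_of_injective (A.erase (m-1)) (add_left_injective 1)]
    refine le_trans (card_le_card ?_) (card_union_le _ _)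
    intro k hk
    simp only [mem_image, mem_erase, hA, mem_filter, mem_range] at hk
    obtain ⟨i, ⟨h2, h3, h4⟩, rfl⟩ := hk
    have h5 : i + 1 < m := by omega
    simp only [mem_union, mem_filter, mem_range]
    cases h' : t (i+1) j with
    | O => exact absurd h' (h.hOv i j h5 (by omega) h4)
    | R =>
      have := (h.hR (i+1) j h5 (by omega) h').1
      omega
    | U =>
      obtain ⟨i', h6, h7⟩ := h.hU (i+1) j h5 (by omega) h'
      have : i = i' := by omega
      subst this
      rw [h4] at h7
      exact absurd h7 (by simp)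
    | L => left; exact ⟨h5, rfl⟩
    | D => right; exact ⟨h5, rfl⟩
  have h2 : A.card ≤ (A.erase (m-1)).card + 1 := by
    have := pred_card_le_card_erase (s := A) (a := m-1)
    omega
  omega

/-- at most half of a column consists of holes -/
lemma half_col (h : IsLab m n t) {j : ℕ} (hj : j < n) : 2 * cnt m t T.O j ≤ m + 1 := by
  classical
  unfold cnt
  set A := (range m).filter (fun i => t i j = T.O) with hA
  have h1 : (A.erase (m-1)).card + A.card ≤ m := by
    rw [← card_image_of_injective (A.erase (m-1)) (add_left_injective 1)]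
    rw [← card_union_of_disjoint]
    · refine le_trans (card_le_card (t := range m) ?_) (by simp)
      intro k hk
      simp only [mem_union, mem_image, mem_erase, hA, mem_filter, mem_range] at hk ⊢
      rcases hk with ⟨i, ⟨h2, h3, h4⟩, rfl⟩ | hk
      · omega
      · exact hk.1
    · rw [disjoint_left]
      intro k hk hk'
      simp only [mem_image, mem_erase, hA, mem_filter, mem_range] at hk hk'
      obtain ⟨i, ⟨h2, h3, h4⟩, rfl⟩ := hk
      exact h.hOv i j (by omega) hj h4 hk'.2
  have h2 : A.card ≤ (A.erase (m-1)).card + 1 := by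
    have := pred_card_le_card_erase (s := A) (a := m-1)
    omega
  omega

/-- continuation of a set of vertical dominoes into the next column -/
def next (m : ℕ) (t : ℕ → ℕ → T) (j : ℕ) (A : Finset ℕ) : Finset ℕ :=
  (range m).filter (fun k => t k (j+1) = T.D ∧ (k + 1 ∈ A ∨ ∃ i ∈ A, i + 1 = k))

lemma next_card (h : IsLab m n t) {j : ℕ} (hj : j + 1 < n) (A : Finset ℕ)
    (hA : ∀ i ∈ A, i < m ∧ t i j = T.D) :
    A.card ≤ (next m t j A).card + ((MR m t j).card + ((MLV m t j).card + (MLH m t j).card)) := by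
  classical
  set A1 := A.filter (fun i => t i (j+1) ≠ T.O ∧ t (i+1) (j+1) ≠ T.O) with hA1
  set A2 := A.filter (fun i => t i (j+1) = T.O ∧ t (i+1) (j+1) = T.R) with hA2
  set A3 := A.filter (fun i => t (i+1) (j+1) = T.O ∧ t i (j+1) = T.R) with hA3
  set A4 := A.filter (fun i => t i (j+1) = T.O ∧ t (i+1) (j+1) = T.D) with hA4
  set A5 := A.filter (fun i => t (i+1) (j+1) = T.O ∧ t i (j+1) = T.U) with hA5
  have hcov : A.card ≤ A1.card + (A2.card + A3.card) + (A4.card + A5.card) := by
    have : A ⊆ A1 ∪ (A2 ∪ A3) ∪ (A4 ∪ A5) := by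
      intro i hi
      obtain ⟨him, hiD⟩ := hA i hi
      obtain ⟨hi1, hiU⟩ := h.hD i j him (by omega) hiD
      simp only [hA1, hA2, hA3, hA4, hA5, mem_union, mem_filter]
      by_cases h1 : t i (j+1) = T.O
      · -- top hole
        cases h' : t (i+1) (j+1) with
        | O => exact absurd h' (h.hOv i (j+1) hi1 hj h1)
        | L =>
          obtain ⟨j', h3, h4⟩ := h.hL (i+1) (j+1) hi1 hj h'
          have : j = j' := by omega
          subst this
          rw [hiU] at h4
          exact absurd h4 (by simp)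
        | R => tauto
        | U =>
          obtain ⟨i', h3, h4⟩ := h.hU (i+1) (j+1) hi1 hj h'
          have : i = i' := by omega
          subst this
          rw [h1] at h4
          exact absurd h4 (by simp)
        | D => tauto
      · by_cases h2 : t (i+1) (j+1) = T.O
        · cases h' : t i (j+1) with
          | O => exact absurd h' h1
          | L =>
            obtain ⟨j', h3, h4⟩ := h.hL i (j+1) him hj h'
            have : j = j' := by omega
            subst this
            rw [hiD] at h4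
            exact absurd h4 (by simp)
          | R => tauto
          | U => tauto
          | D =>
            have := (h.hD i (j+1) him hj h').2
            rw [h2] at this
            exact absurd this (by simp)
        · tauto
    refine le_trans (card_le_card this) ?_
    refine le_trans (card_union_le _ _) ?_
    refine add_le_add (le_trans (card_union_le _ _) ?_) (card_union_le _ _)
    exact add_le_add le_rfl (card_union_le _ _)
  have c1 : A1.card ≤ (MR m t j).card := by
    apply card_le_card
    intro i hi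
    simp only [hA1, MR, mem_filter, mem_range] at hi ⊢
    exact ⟨(hA i hi.1).1, (hA i hi.1).2, hi.2⟩
  have c2 : A2.card + A3.card ≤ (MLH m t j).card := by
    rw [← card_image_of_injective A2 (add_left_injective 1)]
    rw [← card_union_of_disjoint]
    · apply card_le_card
      intro k hk
      simp only [mem_union, mem_image, hA2, hA3, MLH, mem_filter, mem_range] at hk ⊢
      rcases hk with ⟨i, ⟨h2, h3⟩, rfl⟩ | hk
      · obtain ⟨h4, h5⟩ := h.hD i j (hA i h2).1 (by omega) (hA i h2).2
        exact ⟨h4, h3.2, by rw [h5]; simp⟩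
      · exact ⟨(hA k hk.1).1, hk.2.2, by rw [(hA k hk.1).2]; simp⟩
    · rw [disjoint_left]
      intro k hk hk'
      simp only [mem_image, hA2, hA3, mem_filter] at hk hk'
      obtain ⟨i, ⟨h2, h3⟩, rfl⟩ := hk
      obtain ⟨h4, h5⟩ := h.hD i j (hA i h2).1 (by omega) (hA i h2).2
      rw [(hA (i+1) hk'.1).2] at h5
      exact absurd h5 (by simp)
  have c3 : A4.card + A5.card ≤ (next m t j A).card + (MLV m t j).card := by
    have e4 : A4.card = (A4.image (fun i => i + 1)).card :=
      (card_image_of_injective A4 (add_left_injective 1)).symm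
    have e5 : A5.card = (A5.image (fun i => i - 1)).card := by
      symm
      apply card_image_of_injOn
      intro a ha b hb hab
      simp only [hA5, coe_filter, Set.mem_ofPred_eq] at ha hb
      obtain ⟨a', h3, _⟩ := h.hU a (j+1) (hA a ha.1).1 hj ha.2.2
      obtain ⟨b', h4, _⟩ := h.hU b (j+1) (hA b hb.1).1 hj hb.2.2
      simp only at hab
      omega
    rw [e4, e5, ← card_union_add_card_inter]
    apply add_le_add
    · apply card_le_card
      intro k hk
      simp only [mem_union, mem_image, hA4, hA5, mem_filter] at hk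
      simp only [next, mem_filter, mem_range]
      rcases hk with ⟨i, ⟨h2, h3⟩, rfl⟩ | ⟨i, ⟨h2, h3⟩, rfl⟩
      · obtain ⟨h4, h5⟩ := h.hD i j (hA i h2).1 (by omega) (hA i h2).2
        exact ⟨h4, h3.2, Or.inr ⟨i, h2, rfl⟩⟩
      · obtain ⟨i', h4, h5⟩ := h.hU i (j+1) (hA i h2).1 hj h3.2
        have h6 : i - 1 = i' := by omega
        rw [h6]
        refine ⟨?_, h5, Or.inl ?_⟩
        · have := (hA i h2).1
          omega
        · rw [← h4]; exact h2
    · apply card_le_card
      intro k hk
      simp only [mem_inter, mem_image, hA4, hA5, mem_filter] at hk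
      simp only [MLV, mem_filter, mem_range]
      obtain ⟨⟨i, ⟨h2, h3⟩, rfl⟩, ⟨i2, ⟨h4, h5⟩, h6⟩⟩ := hk
      obtain ⟨h7, h8⟩ := h.hD i j (hA i h2).1 (by omega) (hA i h2).2
      obtain ⟨i', h9, h10⟩ := h.hU i2 (j+1) (hA i2 h4).1 hj h5.2
      refine ⟨h7, h3.2, by rw [h8]; simp, ?_⟩
      have : i + 1 + 1 = i2 := by omega
      rw [this, (hA i2 h4).2]
      simp
  omega

/-- the surviving vertical dominoes -/
def As (m : ℕ) (t : ℕ → ℕ → T) : ℕ → Finset ℕ
  | 0 => (range m).filter (fun i => t i 0 = T.D)
  | j + 1 => next m t j (As m t j)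

lemma As_mem (m : ℕ) (t : ℕ → ℕ → T) (j : ℕ) : ∀ i ∈ As m t j, i < m ∧ t i j = T.D := by
  cases j with
  | zero => intro i hi; simpa [As] using hi
  | succ j =>
    intro i hi
    simp only [As, next, mem_filter, mem_range] at hi
    exact ⟨hi.1, hi.2.1⟩

lemma As_path (m : ℕ) (t : ℕ → ℕ → T) (j : ℕ) : ∀ k ∈ As m t j, ∃ f : ℕ → ℕ, f j = k ∧
    (∀ j' ≤ j, f j' < m ∧ t (f j') j' = T.D) ∧
    (∀ j', j' + 1 ≤ j → f (j'+1) = f j' + 1 ∨ f (j'+1) + 1 = f j') := by
  induction j with
  | zero =>
    intro k hk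
    refine ⟨fun _ => k, rfl, ?_, ?_⟩
    · intro j' hj'
      have : j' = 0 := by omega
      subst this
      exact As_mem m t 0 k hk
    · intro j' hj'
      omega
  | succ j ih =>
    intro k hk
    have hk' := As_mem m t (j+1) k hk
    have hk2 := hk
    simp only [As, next, mem_filter, mem_range] at hk2
    obtain ⟨_, _, h3⟩ := hk2
    have : ∃ k0 ∈ As m t j, k = k0 + 1 ∨ k + 1 = k0 := by
      rcases h3 with h3 | ⟨i, h3, h4⟩
      · exact ⟨k+1, h3, Or.inr rfl⟩
      · exact ⟨i, h3, Or.inl h4.symm⟩
    obtain ⟨k0, hk0, hkk⟩ := this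
    obtain ⟨f, hf1, hf2, hf3⟩ := ih k0 hk0
    refine ⟨fun x => if x ≤ j then f x else k, ?_, ?_, ?_⟩
    · simp
    · intro j' hj'
      by_cases hjj : j' ≤ j
      · simp only [hjj, if_true]
        exact hf2 j' hjj
      · have : j' = j + 1 := by omega
        subst this
        simpa using hk'
    · intro j' hj'
      by_cases hjj : j' + 1 ≤ j
      · have h5 : j' ≤ j := by omega
        simp only [hjj, h5, if_true]
        exact hf3 j' hjj
      · have : j' = j := by omega
        subst this
        simp only [le_refl, if_true, hjj, if_false, hf1]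
        exact hkk

/-- number of holes of a labelling -/
def hol (m n : ℕ) (t : ℕ → ℕ → T) : ℕ := ∑ j ∈ range n, cnt m t T.O j

lemma vline (h : IsLab m n t) (hn : n % 3 ≠ 0)
    (hbig : 17 * ((m : ℤ) * n - 3 * hol m n t) + 38 ≤ 2 * m) :
    ∃ f : ℕ → ℕ, (∀ j < n, f j < m ∧ t (f j) j = T.D) ∧
      (∀ j, j + 1 < n → f (j+1) = f j + 1 ∨ f (j+1) + 1 = f j) := by
  classical
  obtain ⟨N, rfl⟩ : ∃ N, n = N + 1 := ⟨n - 1, by omega⟩
  set o : ℕ → ℤ := fun j => cnt m t T.O j with ho
  set r : ℕ → ℤ := fun j => cnt m t T.R j with hr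
  set l : ℕ → ℤ := fun j => cnt m t T.L j with hl
  set v : ℕ → ℤ := fun j => cnt m t T.D j with hv
  set e : ℕ → ℤ := fun j => r (j+1) + v (j+1) - o j with he
  set e' : ℕ → ℤ := fun j => l j + v j - o (j+1) with he'
  have hnn : ∀ j < N, 0 ≤ e j ∧ 0 ≤ e' j := by
    intro j hj
    have h1 := holes_left h (j := j) (by omega)
    have h2 := holes_right h (j := j) (by omega)
    simp only [he, he', ho, hr, hl, hv]
    constructor <;> omega
  have hcol : ∀ j < N + 1, o j + l j + r j + 2 * v j = m := by
    intro j hj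
    have h1 := cnt_total m t j
    have h2 := cnt_UD h hj
    simp only [ho, hr, hl, hv]
    omega
  have hrl : ∀ j < N, r j = l (j+1) := by
    intro j hj
    have := cnt_RL h (j := j) (by omega)
    simp only [hr, hl]
    exact_mod_cast this
  have hl0 : l 0 = 0 := by
    have := cnt_L_zero h (by omega)
    simp only [hl]; exact_mod_cast this
  have hrN : r N = 0 := by
    have := cnt_R_last h (j := N) rfl
    simp only [hr]; exact_mod_cast this
  -- sums
  set H : ℤ := ∑ j ∈ range (N+1), o j with hH
  have hHh : H = (hol m (N+1) t : ℤ) := by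
    simp only [hH, hol, ho]; push_cast; rfl
  set d : ℤ := ∑ j ∈ range (N+1), (r j + v j) with hd
  have hRL : ∑ j ∈ range (N+1), r j = ∑ j ∈ range (N+1), l j := by
    rw [sum_range_succ, sum_range_succ' (fun j => l j), hrN, hl0]
    congr 1
    exact sum_congr rfl (fun j hj => hrl j (by simpa using hj))
  have hd' : d = ∑ j ∈ range (N+1), (l j + v j) := by
    rw [hd, sum_add_distrib, sum_add_distrib, hRL]
  have htot : H + 2 * d = m * (N+1) := by
    have h1 : ∑ j ∈ range (N+1), (o j + l j + r j + 2 * v j) = ∑ j ∈ range (N+1), (m : ℤ) :=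
      sum_congr rfl (fun j hj => hcol j (by simpa using hj))
    simp only [sum_add_distrib, sum_const, card_range, nsmul_eq_mul, ← mul_sum] at h1
    rw [hd, sum_add_distrib, hH]
    rw [hRL] at h1 ⊢
    push_cast at h1
    linarith
  have hE : ∑ j ∈ range N, e j = (d - r 0 - v 0) - (H - o N) := by
    simp only [he, sum_sub_distrib]
    rw [hd, hH, sum_range_succ' (fun j => r j + v j), sum_range_succ (fun j => o j)]
    ring
  have hE' : ∑ j ∈ range N, e' j = (d - l N - v N) - (H - o 0) := by
    simp only [he', sum_sub_distrib]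
    rw [hd', hH, sum_range_succ (fun j => l j + v j), sum_range_succ' (fun j => o j)]
    ring
  have hbl : o 0 ≤ r 0 + v 0 + 1 := by
    have := border_left h (by omega)
    simp only [ho, hr, hv]; exact_mod_cast this
  have hbr : o N ≤ l N + v N + 1 := by
    have := border_right h (j := N) rfl
    simp only [ho, hl, hv]; exact_mod_cast this
  have hEnn : 0 ≤ ∑ j ∈ range N, e j := sum_nonneg (fun j hj => (hnn j (by simpa using hj)).1)
  have hEnn' : 0 ≤ ∑ j ∈ range N, e' j := sum_nonneg (fun j hj => (hnn j (by simpa using hj)).2)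
  -- survivors
  have hsurv : ∀ j ≤ N, ((As m t 0).card : ℤ) ≤ (As m t j).card + ∑ i ∈ range j, (e i + e' i) := by
    intro j
    induction j with
    | zero => intro _; simp
    | succ j ih =>
      intro hj
      have ih' := ih (by omega)
      rw [sum_range_succ]
      have h1 := next_card h (j := j) (by omega) (As m t j) (As_mem m t j)
      have h2 := holes_left h (j := j) (by omega)
      have h3 := holes_right h (j := j) (by omega)
      have h4 : As m t (j+1) = next m t j (As m t j) := rfl
      rw [← h4] at h1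
      simp only [he, he', ho, hr, hl, hv] at ih' ⊢
      have h1' : ((As m t j).card : ℤ) ≤ (As m t (j+1)).card + ((MR m t j).card + ((MLV m t j).card + (MLH m t j).card)) := by exact_mod_cast h1
      have h2' : (cnt m t T.O j : ℤ) + ((MLV m t j).card + (MLH m t j).card) ≤ cnt m t T.R (j+1) + cnt m t T.D (j+1) := by exact_mod_cast h2
      have h3' : (cnt m t T.O (j+1) : ℤ) + (MR m t j).card ≤ cnt m t T.L j + cnt m t T.D j := by exact_mod_cast h3
      linarith
  have hs := hsurv N le_rfl
  rw [sum_add_distrib] at hs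
  have hA0 : ((As m t 0).card : ℤ) = v 0 := by
    simp only [As, hv, cnt]
  rw [hA0] at hs
  -- lower bound for v 0
  have hblock : ∀ j, j + 2 ≤ N → o j + o (j+1) + o (j+2) + (e j + e' (j+1)) = m := by
    intro j hj
    have := hcol (j+1) (by omega)
    simp only [he, he']
    linarith
  have hc0 := hcol 0 (by omega)
  have hmain : 0 < ((As m t N).card : ℤ) := by
    have hHh' : 17 * ((m : ℤ) * (N+1) - 3 * H) + 38 ≤ 2 * m := by
      rw [hHh]; push_cast at hbig; linarith
    rcases (show (N + 1) % 3 = 1 ∨ (N + 1) % 3 = 2 by omega) with h1 | h1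
    · obtain ⟨k, hk⟩ : ∃ k, N = 3 * k := ⟨N / 3, by omega⟩
      have hL : ∀ i ≤ k, (m : ℤ) * i ≤ ∑ j ∈ range (3*i), o j + ∑ j ∈ range (3*i), (e j + e' j) := by
        intro i
        induction i with
        | zero => intro _; simp
        | succ i ih =>
          intro hi
          have ih' := ih (by omega)
          have e1 : 3 * (i+1) = 3*i+1+1+1 := by ring
          rw [e1]
          simp only [sum_range_succ] at ih' ⊢
          have b := hblock (3*i) (by omega)
          have n0 := hnn (3*i) (by omega)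
          have n1 := hnn (3*i+1) (by omega)
          have n2 := hnn (3*i+1+1) (by omega)
          have e2 : 3*i+2 = 3*i+1+1 := by ring
          rw [e2] at b
          push_cast
          linarith [n0.1, n0.2, n1.1, n1.2, n2.1, n2.2]
      have hR : ∀ i ≤ k, (m : ℤ) * i ≤ ∑ j ∈ range (3*i), o (j+1) + ∑ j ∈ range (3*i), (e j + e' j) := by
        intro i
        induction i with
        | zero => intro _; simp
        | succ i ih =>
          intro hi
          have ih' := ih (by omega)
          have e1 : 3 * (i+1) = 3*i+1+1+1 := by ring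
          rw [e1]
          simp only [sum_range_succ] at ih' ⊢
          have b := hblock (3*i+1) (by omega)
          have n0 := hnn (3*i) (by omega)
          have n1 := hnn (3*i+1) (by omega)
          have n2 := hnn (3*i+1+1) (by omega)
          have e2 : 3*i+1+2 = 3*i+1+1+1 := by ring
          rw [e2] at b
          push_cast
          linarith [n0.1, n0.2, n1.1, n1.2, n2.1, n2.2]
      have hLk := hL k le_rfl
      have hRk := hR k le_rfl
      rw [← hk, sum_add_distrib] at hLk hRk
      have hH1 : H = ∑ j ∈ range N, o j + o N := by rw [hH, sum_range_succ]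
      have hH2 : H = ∑ j ∈ range N, o (j+1) + o 0 := by rw [hH, sum_range_succ']
      have hNk : (m : ℤ) * (N + 1) = 3 * (m * k) + m := by
        rw [hk]; push_cast; ring
      rw [hNk] at hHh' htot
      rw [hE, hE'] at hLk hRk hs
      rw [hE] at hEnn
      rw [hE'] at hEnn'
      rw [hl0] at hc0
      nlinarith
    · obtain ⟨k, hk⟩ : ∃ k, N = 3 * k + 1 := ⟨N / 3, by omega⟩
      have hL : ∀ i ≤ k, ∑ j ∈ range (3*i), o (j+2) ≤ (m : ℤ) * i := by
        intro i
        induction i with
        | zero => intro _; simp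
        | succ i ih =>
          intro hi
          have ih' := ih (by omega)
          have e1 : 3 * (i+1) = 3*i+1+1+1 := by ring
          rw [e1]
          simp only [sum_range_succ] at ih' ⊢
          have b := hblock (3*i+2) (by omega)
          have n0 := hnn (3*i+2) (by omega)
          have n1 := hnn (3*i+2+1) (by omega)
          have e2 : 3*i+1+2 = 3*i+2+1 := by ring
          have e3 : 3*i+1+1+2 = 3*i+2+2 := by ring
          rw [e2, e3]
          push_cast
          linarith [n0.1, n0.2, n1.1, n1.2]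
      have hLk := hL k le_rfl
      have hH2 : H = (∑ j ∈ range (3*k), o (j+2)) + o 1 + o 0 := by
        rw [hH, hk, sum_range_succ', sum_range_succ']
      have hNk : (m : ℤ) * (N + 1) = 3 * (m * k) + 2 * m := by
        rw [hk]; push_cast; ring
      have hhalf : 2 * o 0 ≤ m + 1 := by
        have := half_col h (j := 0) (by omega)
        simp only [ho]; exact_mod_cast this
      have he0 := (hnn 0 (by omega)).2
      simp only [he', hl0] at he0
      rw [hNk] at hHh' htot
      rw [hE, hE'] at hs
      rw [hE] at hEnn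
      rw [hE'] at hEnn'
      nlinarith
  have hne : (As m t N).Nonempty := by
    rw [← card_pos]
    exact_mod_cast hmain
  obtain ⟨k, hk⟩ := hne
  obtain ⟨f, _, hf2, hf3⟩ := As_path m t N k hk
  exact ⟨f, fun j hj => hf2 j (by omega), fun j hj => hf3 j (by omega)⟩

lemma hol_swap (m n : ℕ) (t : ℕ → ℕ → T) : hol n m (fun i j => (t j i).swap) = hol m n t := by
  unfold hol cnt
  simp only [card_filter]
  rw [sum_comm]
  refine sum_congr rfl (fun j _ => sum_congr rfl (fun i _ => ?_))
  cases h' : t i j <;> simp [T.swap]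

/-- Main inequality for labellings. -/
theorem lab_bound (h : IsLab m n t) (hm : m % 3 ≠ 0) (hn : n % 3 ≠ 0) :
    51 * hol m n t + 2 * min m n ≤ 17 * (m * n) + 36 := by
  by_contra hcon
  have h1 : (17 * (m * n) + 36 : ℤ) < 51 * hol m n t + 2 * min m n := by
    push Not at hcon
    exact_mod_cast hcon
  have h2 : (min m n : ℤ) ≤ m := by exact_mod_cast min_le_left m n
  have h3 : (min m n : ℤ) ≤ n := by exact_mod_cast min_le_right m n
  have par : (2:ℤ) ∣ ((m : ℤ) * n - hol m n t) := by
    have : ∀ j ∈ range n, (2:ℤ) ∣ (m - cnt m t T.O j - cnt m t T.L j - cnt m t T.R j : ℤ) := by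
      intro j hj
      have h1 := cnt_total m t j
      have h2 := cnt_UD h (by simpa using hj)
      refine ⟨cnt m t T.D j, ?_⟩
      omega
    have h4 := dvd_sum this
    have h5 : ∑ j ∈ range n, (cnt m t T.R j : ℤ) = ∑ j ∈ range n, (cnt m t T.L j : ℤ) := by
      obtain ⟨N, rfl⟩ : ∃ N, n = N + 1 := ⟨n - 1, by omega⟩
      rw [sum_range_succ, sum_range_succ' (fun j => (cnt m t T.L j : ℤ)), cnt_R_last h rfl, cnt_L_zero h (by omega)]
      congr 1
      refine sum_congr rfl (fun j hj => ?_)
      rw [cnt_RL h (by simpa using hj)]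
    simp only [sum_sub_distrib, h5, sum_const, card_range, nsmul_eq_mul] at h4
    have h6 : ((m : ℤ) * n - hol m n t) = ((n : ℤ) * m - ∑ j ∈ range n, (cnt m t T.O j : ℤ) - ∑ j ∈ range n, (cnt m t T.L j : ℤ) - ∑ j ∈ range n, (cnt m t T.L j : ℤ)) + 2 * ∑ j ∈ range n, (cnt m t T.L j : ℤ) := by
      unfold hol
      push_cast
      ring
    rw [h6]
    exact dvd_add h4 (dvd_mul_right _ _)
  obtain ⟨c, hc⟩ := par
  obtain ⟨f, hf, hf1⟩ := vline h hn (by omega)
  have h' := h.transpose
  obtain ⟨g, hg, hg1⟩ := vline h' hm (by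
    rw [hol_swap]
    have : (n : ℤ) * m = m * n := mul_comm _ _
    rw [this]
    omega)
  refine crossing h (by omega) f g hf hf1 ?_ hg1
  intro i hi
  refine ⟨(hg i hi).1, ?_⟩
  have := (hg i hi).2
  cases h'' : t i (g i) <;> simp_all [T.swap]

section link

variable {m n : ℕ} {D : Finset (Finset (Fin m × Fin n))}

def dm (D : Finset (Finset (Fin m × Fin n))) (i j i' j' : ℕ) : Prop :=
  ∃ (hi : i < m) (hj : j < n) (hi' : i' < m) (hj' : j' < n),
    ({(⟨i, hi⟩, ⟨j, hj⟩), (⟨i', hi'⟩, ⟨j', hj'⟩)} : Finset (Fin m × Fin n)) ∈ D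

lemma dm_symm {i j i' j' : ℕ} (h : dm D i j i' j') : dm D i' j' i j := by
  obtain ⟨h1, h2, h3, h4, h5⟩ := h
  refine ⟨h3, h4, h1, h2, ?_⟩
  rw [Finset.pair_comm]
  exact h5

lemma adj_ne {a b : Fin m × Fin n} (h : Adj a b) : a ≠ b := by
  rintro rfl
  unfold Adj at h
  omega

lemma partner_unique (hD : IsGunport D) {p q q' : Fin m × Fin n}
    (h1 : ({p, q} : Finset (Fin m × Fin n)) ∈ D) (h2 : ({p, q'} : Finset (Fin m × Fin n)) ∈ D) :
    q = q' := by
  have heq : ({p, q} : Finset (Fin m × Fin n)) = {p, q'} := by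
    by_contra hne
    have := hD.nonOverlapping _ h1 _ h2 hne
    rw [Finset.disjoint_left] at this
    exact this (a := p) (by simp) (by simp)
  obtain ⟨a, b, hab, h3⟩ := hD.isDomino _ h1
  have hcard : ({p, q} : Finset (Fin m × Fin n)).card = 2 := by
    rw [h3]; exact Finset.card_pair (adj_ne hab)
  have hpq : p ≠ q := by
    rintro rfl
    simp at hcard
  have hq : q ∈ ({p, q'} : Finset (Fin m × Fin n)) := by rw [← heq]; simp
  simp only [Finset.mem_insert, Finset.mem_singleton] at hq
  rcases hq with hq | hq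
  · exact absurd hq.symm hpq
  · exact hq

lemma dm_unique (hD : IsGunport D) {i j a b c d : ℕ} (h : dm D i j a b) (h' : dm D i j c d) :
    a = c ∧ b = d := by
  obtain ⟨h1, h2, h3, h4, h5⟩ := h
  obtain ⟨h1', h2', h3', h4', h5'⟩ := h'
  have := partner_unique hD h5 h5'
  simp only [Prod.mk.injEq, Fin.mk.injEq] at this
  exact this

open Classical in
noncomputable def lab (D : Finset (Finset (Fin m × Fin n))) (i j : ℕ) : T :=
  if dm D i j i (j+1) then T.R
  else if ∃ j', j = j' + 1 ∧ dm D i j i j' then T.L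
  else if dm D i j (i+1) j then T.D
  else if ∃ i', i = i' + 1 ∧ dm D i j i' j then T.U
  else T.O

lemma lab_R {i j : ℕ} : lab D i j = T.R ↔ dm D i j i (j+1) := by
  classical
  unfold lab
  split_ifs <;> simp_all

lemma lab_L (hD : IsGunport D) {i j : ℕ} : lab D i j = T.L ↔ ∃ j', j = j' + 1 ∧ dm D i j i j' := by
  classical
  unfold lab
  split_ifs with h1 h2 h3 h4
  · simp only [reduceCtorEq, false_iff]
    rintro ⟨j', h5, h6⟩
    have := dm_unique hD h1 h6
    omega
  all_goals simp_all

lemma lab_D (hD : IsGunport D) {i j : ℕ} : lab D i j = T.D ↔ dm D i j (i+1) j := by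
  classical
  unfold lab
  split_ifs with h1 h2 h3 h4
  · simp only [reduceCtorEq, false_iff]
    intro h6
    have := dm_unique hD h1 h6
    omega
  · simp only [reduceCtorEq, false_iff]
    intro h6
    obtain ⟨j', h7, h8⟩ := h2
    have := dm_unique hD h8 h6
    omega
  all_goals simp_all

lemma lab_U (hD : IsGunport D) {i j : ℕ} : lab D i j = T.U ↔ ∃ i', i = i' + 1 ∧ dm D i j i' j := by
  classical
  unfold lab
  split_ifs with h1 h2 h3 h4
  · simp only [reduceCtorEq, false_iff]
    rintro ⟨j', h5, h6⟩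
    have := dm_unique hD h1 h6
    omega
  · simp only [reduceCtorEq, false_iff]
    rintro ⟨i', h5, h6⟩
    obtain ⟨j', h7, h8⟩ := h2
    have := dm_unique hD h8 h6
    omega
  · simp only [reduceCtorEq, false_iff]
    rintro ⟨i', h5, h6⟩
    have := dm_unique hD h3 h6
    omega
  all_goals simp_all

lemma lab_O (hD : IsGunport D) {i j : ℕ} (hi : i < m) (hj : j < n) :
    lab D i j = T.O ↔ ∀ d ∈ D, ((⟨i, hi⟩, ⟨j, hj⟩) : Fin m × Fin n) ∉ d := by
  classical
  constructor
  · intro h d hd hmem
    obtain ⟨a, b, hab, rfl⟩ := hD.isDomino d hd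
    have key : ∀ c : Fin m × Fin n, Adj (⟨i, hi⟩, ⟨j, hj⟩) c →
        ({(⟨i, hi⟩, ⟨j, hj⟩), c} : Finset (Fin m × Fin n)) ∈ D → False := by
      rintro ⟨⟨ci, hci⟩, ⟨cj, hcj⟩⟩ hadj hc
      have hdm : dm D i j ci cj := ⟨hi, hj, hci, hcj, hc⟩
      simp only [Adj, Fin.mk.injEq] at hadj
      rcases hadj with ⟨h1, h2 | h2⟩ | ⟨h1, h2 | h2⟩
      · subst h1; subst h2
        rw [lab_R.2 hdm] at h
        exact absurd h (by simp)
      · subst h1; subst h2
        rw [(lab_L hD).2 ⟨cj, rfl, hdm⟩] at h
        exact absurd h (by simp)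
      · subst h1; subst h2
        rw [(lab_D hD).2 hdm] at h
        exact absurd h (by simp)
      · subst h1; subst h2
        rw [(lab_U hD).2 ⟨ci, rfl, hdm⟩] at h
        exact absurd h (by simp)
    simp only [Finset.mem_insert, Finset.mem_singleton] at hmem
    rcases hmem with rfl | rfl
    · exact key b hab hd
    · refine key a ?_ (by rw [Finset.pair_comm]; exact hd)
      unfold Adj at hab ⊢
      rcases hab with ⟨h1, h2⟩ | ⟨h1, h2⟩
      · left; exact ⟨h1.symm, h2.symm⟩
      · right; exact ⟨h1.symm, h2.symm⟩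
  · intro h
    cases h' : lab D i j with
    | O => rfl
    | R =>
      obtain ⟨h1, h2, h3, h4, h5⟩ := lab_R.1 h'
      exact absurd (by simp) (h _ h5)
    | L =>
      obtain ⟨j', _, h1, h2, h3, h4, h5⟩ := (lab_L hD).1 h'
      exact absurd (by simp) (h _ h5)
    | D =>
      obtain ⟨h1, h2, h3, h4, h5⟩ := (lab_D hD).1 h'
      exact absurd (by simp) (h _ h5)
    | U =>
      obtain ⟨i', _, h1, h2, h3, h4, h5⟩ := (lab_U hD).1 h'
      exact absurd (by simp) (h _ h5)

lemma lab_isLab (hD : IsGunport D) : IsLab m n (lab D) where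
  hR := by
    intro i j hi hj h
    have h1 := lab_R.1 h
    refine ⟨?_, (lab_L hD).2 ⟨j, rfl, dm_symm h1⟩⟩
    obtain ⟨_, _, _, h4, _⟩ := h1
    exact h4
  hL := by
    intro i j hi hj h
    obtain ⟨j', rfl, h1⟩ := (lab_L hD).1 h
    exact ⟨j', rfl, lab_R.2 (dm_symm h1)⟩
  hD := by
    intro i j hi hj h
    have h1 := (lab_D hD).1 h
    refine ⟨?_, (lab_U hD).2 ⟨i, rfl, dm_symm h1⟩⟩
    obtain ⟨_, _, h4, _, _⟩ := h1
    exact h4
  hU := by
    intro i j hi hj h
    obtain ⟨i', rfl, h1⟩ := (lab_U hD).1 h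
    exact ⟨i', rfl, (lab_D hD).2 (dm_symm h1)⟩
  hOh := by
    intro i j hi hj h h'
    have h1 := (lab_O hD hi (by omega)).1 h
    have h2 := (lab_O hD hi hj).1 h'
    rcases hD.noAdjacentHoles (⟨i, hi⟩, ⟨j, by omega⟩) (⟨i, hi⟩, ⟨j+1, hj⟩)
      (by unfold Adj; left; simp) with ⟨d, hd, hm⟩ | ⟨d, hd, hm⟩
    · exact h1 d hd hm
    · exact h2 d hd hm
  hOv := by
    intro i j hi hj h h'
    have h1 := (lab_O hD (by omega) hj).1 h
    have h2 := (lab_O hD hi hj).1 h'
    rcases hD.noAdjacentHoles (⟨i, by omega⟩, ⟨j, hj⟩) (⟨i+1, hi⟩, ⟨j, hj⟩)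
      (by unfold Adj; right; simp) with ⟨d, hd, hm⟩ | ⟨d, hd, hm⟩
    · exact h1 d hd hm
    · exact h2 d hd hm

lemma holes_card (hD : IsGunport D) : (holes D).card = hol m n (lab D) := by
  classical
  unfold holes hol cnt
  simp only [Finset.card_filter]
  rw [Finset.sum_range (n := n), ← Finset.univ_product_univ, Finset.sum_product_right]
  refine Finset.sum_congr rfl (fun j _ => ?_)
  rw [Finset.sum_range (n := m)]
  refine Finset.sum_congr rfl (fun i _ => ?_)
  have := lab_O hD i.2 j.2
  simp only [Fin.eta] at this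
  simp only [this]

end link

/-- The number of holes of any gunport configuration on a board with no side divisible by 3. -/
theorem gunport_bound {m n : ℕ} (hm : ¬ 3 ∣ m) (hn : ¬ 3 ∣ n)
    {D : Finset (Finset (Fin m × Fin n))} (hD : IsGunport D) :
    51 * (holes D).card + 2 * min m n ≤ 17 * (m * n) + 36 := by
  rw [holes_card hD]
  exact lab_bound (lab_isLab hD) (by omega) (by omega)

/-- A gunport configuration exists on every board, so that `G m n` is attained. -/
theorem exists_gunport (m n : ℕ) : ∃ D : Finset (Finset (Fin m × Fin n)), IsGunport D := by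
  classical
  set S : Finset (Finset (Finset (Fin m × Fin n))) := Finset.univ.filter (fun D =>
    (∀ d ∈ D, ∃ a b, Adj a b ∧ d = {a, b}) ∧ (∀ d ∈ D, ∀ e ∈ D, d ≠ e → Disjoint d e)) with hS
  have hne : S.Nonempty := ⟨∅, by simp [hS]⟩
  obtain ⟨D, hD, hmax⟩ := Finset.exists_max_image S Finset.card hne
  simp only [hS, Finset.mem_filter, Finset.mem_univ, true_and] at hD hmax
  refine ⟨D, hD.1, hD.2, ?_⟩
  intro a b hab
  by_contra hcon
  push Not at hcon
  have hnot : ({a, b} : Finset (Fin m × Fin n)) ∉ D := fun h => hcon.1 _ h (by simp)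
  have hdis : ∀ d ∈ D, Disjoint d ({a, b} : Finset (Fin m × Fin n)) := by
    intro d hd
    rw [Finset.disjoint_left]
    intro x hx hx'
    simp only [Finset.mem_insert, Finset.mem_singleton] at hx'
    rcases hx' with rfl | rfl
    · exact hcon.1 d hd hx
    · exact hcon.2 d hd hx
  have h1 := hmax (insert {a, b} D) ⟨?_, ?_⟩
  · rw [Finset.card_insert_of_notMem hnot] at h1
    omega
  · intro d hd
    rw [Finset.mem_insert] at hd
    rcases hd with rfl | hd
    · exact ⟨a, b, hab, rfl⟩
    · exact hD.1 d hd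
  · intro d hd e he hde
    rw [Finset.mem_insert] at hd he
    rcases hd with rfl | hd <;> rcases he with rfl | he
    · exact absurd rfl hde
    · exact (hdis e he).symm
    · exact hdis d hd
    · exact hD.2 d hd e he hde

theorem bddAbove_holes (m n : ℕ) :
    BddAbove {h : ℕ | ∃ D : Finset (Finset (Fin m × Fin n)), IsGunport D ∧ (holes D).card = h} := by
  refine ⟨m * n, ?_⟩
  rintro _ ⟨D, _, rfl⟩
  calc (holes D).card ≤ (Finset.univ : Finset (Fin m × Fin n)).card := Finset.card_le_univ _
    _ = m * n := by simp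

/-- `G m n` is a maximum, attained by some gunport configuration. -/
theorem G_isGreatest (m n : ℕ) :
    IsGreatest {h : ℕ | ∃ D : Finset (Finset (Fin m × Fin n)), IsGunport D ∧ (holes D).card = h}
      (G m n) := by
  obtain ⟨D, hD⟩ := exists_gunport m n
  refine ⟨Nat.sSup_mem ⟨_, D, hD, rfl⟩ (bddAbove_holes m n), fun h hh => ?_⟩
  exact le_csSup (bddAbove_holes m n) hh

theorem G_bound {m n : ℕ} (hm : ¬ 3 ∣ m) (hn : ¬ 3 ∣ n) :
    51 * G m n + 2 * min m n ≤ 17 * (m * n) + 36 := by
  obtain ⟨D, hD, h1⟩ := (G_isGreatest m n).1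
  rw [← h1]
  exact gunport_bound hm hn hD

/-- Pearce's formula is false.  It fails for every board both of whose sides are at least 53
and not divisible by 3; moreover the deficit `m * n / 3 - G m n` grows at least linearly in the
shorter side. -/
theorem result :
    (¬ ∀ m n : ℕ, 2 ≤ m → 2 ≤ n → ¬ 3 ∣ m → ¬ 3 ∣ n → (G m n : ℚ) = pearceValue m n) ∧
    (∀ m n : ℕ, 53 ≤ m → 53 ≤ n → ¬ 3 ∣ m → ¬ 3 ∣ n → (G m n : ℚ) < pearceValue m n) ∧
    (∀ m n : ℕ, ¬ 3 ∣ m → ¬ 3 ∣ n →
      (G m n : ℚ) ≤ (m : ℚ) * n / 3 - (2 * (min m n : ℕ) - 36) / 51) := by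
  have h3 : ∀ m n : ℕ, ¬ 3 ∣ m → ¬ 3 ∣ n →
      (G m n : ℚ) ≤ (m : ℚ) * n / 3 - (2 * (min m n : ℕ) - 36) / 51 := by
    intro m n hm hn
    have h : (51 * G m n + 2 * (min m n : ℕ) : ℚ) ≤ 17 * (m * n) + 36 := by
      exact_mod_cast G_bound hm hn
    linarith
  have h2 : ∀ m n : ℕ, 53 ≤ m → 53 ≤ n → ¬ 3 ∣ m → ¬ 3 ∣ n → (G m n : ℚ) < pearceValue m n := by
    intro m n hm53 hn53 hm hn
    have h := h3 m n hm hn
    have hmin : (53 : ℚ) ≤ (min m n : ℕ) := by exact_mod_cast le_min hm53 hn53
    unfold pearceValue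
    split_ifs <;> linarith
  refine ⟨?_, h2, h3⟩
  intro hall
  have h4 := hall 53 53 (by norm_num) (by norm_num) (by norm_num) (by norm_num)
  have h5 := h2 53 53 le_rfl le_rfl (by norm_num) (by norm_num)
  rw [h4] at h5
  exact lt_irrefl _ h5

end Pool.H33.MV.PearceFalse
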